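import Pool.Agent.Helper82.Egg.Red
import Pool.Agent.Helper93.Eggert.Count
import Pool.Agent.Helper88.Eggert.EggertLocal
import Pool.Agent.Helper88.Eggert.Deriv

set_option autoImplicit false

universe u

namespace Pool.Agent.Results.MP_923967_al.SemigroupEggert

/-- `multiple n x`, for `n ≥ 1`, is the sum `x + ⋯ + x` of `n` terms: start from `x` and add `x`
another `n - 1` times (the value for `n = 0` is not used). -/
def multiple {S : Type u} [Add S] (n : ℕ) (x : S) : S := (fun y : S => y + x)^[n - 1] x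

open Pool.Agent.Helper82.Egg in
private theorem mon (n : ℕ) (hn : 0 < n) (M : Type u) [CommMonoid M] [Finite M] (z : M)
    (hz : ∀ x : M, z * x = z) (hnil : ∀ x : M, x ≠ 1 → ∃ k : ℕ, x ^ k = z) :
    n * {y : M | y ≠ 1 ∧ y ≠ z ∧ ∃ x : M, x ^ n = y}.ncard ≤ {y : M | y ≠ 1 ∧ y ≠ z}.ncard := by
  have hcount : Pool.Agent.Helper88.Eggert.CountStatement := by
    intro M R _ _ _ _ p _ _ m hm hloc φ I Z Y hI hZ hY h1 s hs Λ hΛ C hC u hu hKL
    exact Pool.Agent.Helper93.Eggert.count p m hm hloc φ I Z Y hI hZ hY h1 s hs Λ hΛ C hC u hu hKL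
  have H : EggertHyp := fun p _ A _ _ _ 𝔪 hm hloc Z hZ =>
    Pool.Agent.Helper88.Eggert.eggert_of hcount Pool.Agent.Helper88.Eggert.exists_derivation
      𝔪 hm hloc Z hZ
  let e : Shrink.{0} M ≃* M := Shrink.mulEquiv
  have : Finite (Shrink.{0} M) := Finite.of_equiv M e.symm.toEquiv
  have h := monForm_all H n hn (Shrink.{0} M) (e.symm z)
    (fun x => by
      apply e.injective
      rw [map_mul, e.apply_symm_apply, hz])
    (fun x hx => by
      obtain ⟨k, hk⟩ := hnil (e x) (fun h => hx (by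
        apply e.injective; rw [h, map_one]))
      exact ⟨k, by apply e.injective; rw [map_pow, hk, e.apply_symm_apply]⟩)
  have e1 : e '' {y : Shrink.{0} M | y ≠ 1 ∧ y ≠ e.symm z ∧ ∃ x : Shrink.{0} M, x ^ n = y} =
      {y : M | y ≠ 1 ∧ y ≠ z ∧ ∃ x : M, x ^ n = y} := by
    ext y
    constructor
    · rintro ⟨y', ⟨h1, h2, x, hx⟩, rfl⟩
      refine ⟨fun h => h1 (by apply e.injective; rw [h, map_one]),
        fun h => h2 (by rw [← h, e.symm_apply_apply]), e x, ?_⟩
      rw [← map_pow, hx]
    · rintro ⟨h1, h2, x, hx⟩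
      refine ⟨e.symm y, ⟨fun h => h1 (by rw [← e.apply_symm_apply y, h, map_one]),
        fun h => h2 (e.symm.injective h), e.symm x, ?_⟩, e.apply_symm_apply y⟩
      rw [← map_pow, hx]
  have e2 : e '' {y : Shrink.{0} M | y ≠ 1 ∧ y ≠ e.symm z} = {y : M | y ≠ 1 ∧ y ≠ z} := by
    ext y
    constructor
    · rintro ⟨y', ⟨h1, h2⟩, rfl⟩
      exact ⟨fun h => h1 (by apply e.injective; rw [h, map_one]),
        fun h => h2 (by rw [← h, e.symm_apply_apply])⟩
    · rintro ⟨h1, h2⟩
      exact ⟨e.symm y, ⟨fun h => h1 (by rw [← e.apply_symm_apply y, h, map_one]),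
        fun h => h2 (e.symm.injective h)⟩, e.apply_symm_apply y⟩
  rw [← e1, ← e2, Set.ncard_image_of_injective _ e.injective,
    Set.ncard_image_of_injective _ e.injective]
  exact h

private theorem pow_eq {S : Type u} [AddCommSemigroup S] (x : S) (n : ℕ) :
    ((Multiplicative.ofAdd x : Multiplicative S) : WithOne (Multiplicative S)) ^ (n + 1) =
      ((Multiplicative.ofAdd (multiple (n + 1) x) : Multiplicative S) :
        WithOne (Multiplicative S)) := by
  induction n with
  | zero => rw [zero_add, pow_one]; rfl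
  | succ n ih =>
    rw [pow_succ, ih, ← WithOne.coe_mul, ← ofAdd_add]
    unfold multiple
    rw [Nat.add_sub_cancel, Nat.add_sub_cancel, Function.iterate_succ_apply']

/-- The semigroup form of Eggert's inequality. -/
theorem result (S : Type u) [AddCommSemigroup S] [Finite S] (z : S)
    (hz : ∀ x : S, x + z = z)
    (hnil : ∀ x : S, ∃ k : ℕ, 1 ≤ k ∧ multiple k x = z) (n : ℕ) (hn : 1 ≤ n) :
    n * ({y : S | ∃ x : S, multiple n x = y} \ {z}).ncard ≤ ({z}ᶜ : Set S).ncard := by
  let ι : S → WithOne (Multiplicative S) := fun s =>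
    ((Multiplicative.ofAdd s : Multiplicative S) : WithOne (Multiplicative S))
  have hι : Function.Injective ι := fun a b h =>
    Multiplicative.ofAdd.injective (WithOne.coe_injective h)
  have hfin : Finite (WithOne (Multiplicative S)) :=
    inferInstanceAs (Finite (Option (Multiplicative S)))
  have hcase : ∀ w : WithOne (Multiplicative S), w = 1 ∨ ∃ a : S, w = ι a := fun w =>
    WithOne.cases_on w (Or.inl rfl) (fun a => Or.inr ⟨Multiplicative.toAdd a, rfl⟩)
  have hpow : ∀ (x : S) (m : ℕ), 1 ≤ m → (ι x) ^ m = ι (multiple m x) := by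
    intro x m hm
    obtain ⟨j, rfl⟩ := Nat.exists_eq_add_of_le' hm
    exact pow_eq x j
  have h := mon n hn (WithOne (Multiplicative S)) (ι z)
    (fun w => by
      rcases hcase w with rfl | ⟨a, rfl⟩
      · exact mul_one _
      · show ((Multiplicative.ofAdd z : Multiplicative S) : WithOne (Multiplicative S)) *
          ((Multiplicative.ofAdd a : Multiplicative S) : WithOne (Multiplicative S)) = _
        rw [← WithOne.coe_mul, ← ofAdd_add, add_comm, hz])
    (fun w hw => by
      rcases hcase w with rfl | ⟨a, rfl⟩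
      · exact absurd rfl hw
      · obtain ⟨k, hk, hk2⟩ := hnil a
        exact ⟨k, by rw [hpow a k hk, hk2]⟩)
  have e1 : ι '' ({y : S | ∃ x : S, multiple n x = y} \ {z}) =
      {y : WithOne (Multiplicative S) | y ≠ 1 ∧ y ≠ ι z ∧ ∃ x, x ^ n = y} := by
    ext y
    constructor
    · rintro ⟨b, ⟨⟨x, hx⟩, hb⟩, rfl⟩
      refine ⟨WithOne.coe_ne_one, fun h => hb (hι h), ι x, ?_⟩
      rw [hpow x n hn, hx]
    · rintro ⟨h1, h2, x, hx⟩
      rcases hcase y with rfl | ⟨b, rfl⟩
      · exact absurd rfl h1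
      · rcases hcase x with rfl | ⟨a, rfl⟩
        · rw [one_pow] at hx; exact absurd hx.symm h1
        · rw [hpow a n hn] at hx
          exact ⟨b, ⟨⟨a, hι hx⟩, fun h => h2 (by rw [Set.mem_singleton_iff.1 h])⟩, rfl⟩
  have e2 : ι '' ({z}ᶜ : Set S) = {y : WithOne (Multiplicative S) | y ≠ 1 ∧ y ≠ ι z} := by
    ext y
    constructor
    · rintro ⟨b, hb, rfl⟩
      exact ⟨WithOne.coe_ne_one, fun h => hb (hι h)⟩
    · rintro ⟨h1, h2⟩
      rcases hcase y with rfl | ⟨b, rfl⟩
      · exact absurd rfl h1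
      · exact ⟨b, fun h => h2 (by rw [Set.mem_singleton_iff.1 h]), rfl⟩
  rw [← Set.ncard_image_of_injective _ hι, ← Set.ncard_image_of_injective _ hι, e1, e2]
  exact h

end Pool.Agent.Results.MP_923967_al.SemigroupEggert
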